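import Mathlib

/-!
Connectivity of the graph of admissible `m`-faces of a hypersimplex (Module C for `MP_745f23_co`).
-/

namespace Pool.Agent.Helper93.CB

open Finset

def Valid (n k : ℕ) (G : Finset (Fin n × Bool)) : Prop :=
  (∀ i, ¬ ((i, true) ∈ G ∧ (i, false) ∈ G)) ∧ (G.filter (fun ρ => ρ.2 = true)).card + 1 ≤ k ∧
  (G.filter (fun ρ => ρ.2 = false)).card + k + 1 ≤ n

theorem Valid.mono {n k : ℕ} {G H : Finset (Fin n × Bool)} (h : Valid n k H) (hGH : G ⊆ H) :
    Valid n k G := by
  obtain ⟨h1, h2, h3⟩ := h
  refine ⟨fun i hi => h1 i ⟨hGH hi.1, hGH hi.2⟩, ?_, ?_⟩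
  · have := card_le_card (filter_subset_filter (fun ρ : Fin n × Bool => ρ.2 = true) hGH)
    omega
  · have := card_le_card (filter_subset_filter (fun ρ : Fin n × Bool => ρ.2 = false) hGH)
    omega

/-- The set of signed indices of a labelling. -/
def M {n : ℕ} (f : Fin n → Option Bool) : Finset (Fin n × Bool) :=
  univ.filter (fun ρ => f ρ.1 = some ρ.2)

theorem mem_M {n : ℕ} (f : Fin n → Option Bool) (ρ : Fin n × Bool) :
    ρ ∈ M f ↔ f ρ.1 = some ρ.2 := by simp [M]

def cnt {n : ℕ} (f : Fin n → Option Bool) (b : Bool) : ℕ :=
  (univ.filter (fun i => f i = some b)).card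

theorem card_M_filter {n : ℕ} (f : Fin n → Option Bool) (b : Bool) :
    ((M f).filter (fun ρ => ρ.2 = b)).card = cnt f b := by
  unfold cnt
  symm
  apply card_bij (fun i _ => (i, b))
  · intro i hi
    simp only [mem_filter, mem_univ, true_and] at hi
    simp [mem_M, hi]
  · intro i _ j _ h
    exact (Prod.mk.inj h).1
  · rintro ⟨i, c⟩ h
    simp only [mem_filter, mem_M] at h
    obtain ⟨h1, h2⟩ := h
    subst h2
    exact ⟨i, by simp [h1], rfl⟩

theorem card_M {n : ℕ} (f : Fin n → Option Bool) : (M f).card = cnt f true + cnt f false := by
  rw [← card_M_filter, ← card_M_filter,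
    ← card_filter_add_card_filter_not (s := M f) (fun ρ => ρ.2 = true)]
  congr 2
  ext ρ
  simp

def Good {n : ℕ} (k : ℕ) (f : Fin n → Option Bool) : Prop :=
  cnt f true + 1 = k ∧ cnt f false + k + 1 = n

theorem Good.valid {n k : ℕ} {f : Fin n → Option Bool} (h : Good k f) : Valid n k (M f) := by
  refine ⟨?_, ?_, ?_⟩
  · rintro i ⟨h1, h2⟩
    rw [mem_M] at h1 h2
    simp_all
  · rw [card_M_filter]; exact h.1.le
  · rw [card_M_filter]; exact h.2.le

theorem Good.card {n k : ℕ} {f : Fin n → Option Bool} (h : Good k f) : (M f).card + 2 = n := by
  rw [card_M]; obtain ⟨h1, h2⟩ := h; omega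

/-- Inside one valid set all `m`-subsets have the same value. -/
theorem same_of_subset {n k m : ℕ} (val : Finset (Fin n × Bool) → ℚ)
    (h : ∀ H, Valid n k H → H.card = m + 1 → ∀ G G', G ⊆ H → G' ⊆ H → G.card = m → G'.card = m →
      val G = val G') (N : Finset (Fin n × Bool)) (hN : Valid n k N) :
    ∀ (d : ℕ) (G G' : Finset (Fin n × Bool)), (G \ G').card = d → G ⊆ N → G' ⊆ N → G.card = m →
      G'.card = m → val G = val G' := by
  intro d
  induction d with
  | zero =>
    intro G G' hd _ _ h1 h2
    have : G ⊆ G' := by
      rw [card_eq_zero] at hd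
      exact sdiff_eq_empty_iff_subset.1 hd
    rw [eq_of_subset_of_card_le this (by omega)]
  | succ d ih =>
    intro G G' hd hG hG' h1 h2
    have hne : (G \ G').Nonempty := by rw [← card_pos]; omega
    have hne' : (G' \ G).Nonempty := by
      rw [← card_pos]
      have e1 := card_sdiff_add_card_inter G G'
      have e2 := card_sdiff_add_card_inter G' G
      rw [inter_comm] at e2
      omega
    obtain ⟨y, hy⟩ := hne
    obtain ⟨x, hx⟩ := hne'
    rw [mem_sdiff] at hx hy
    have hxy : x ≠ y := by rintro rfl; exact hx.2 hy.1
    have hHN : insert x G ⊆ N := insert_subset (hG' hx.1) hG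
    have hHc : (insert x G).card = m + 1 := by rw [card_insert_of_notMem hx.2, h1]
    have hG1c : ((insert x G).erase y).card = m := by
      rw [card_erase_of_mem (mem_insert_of_mem hy.1), hHc]; rfl
    have e1 : val G = val ((insert x G).erase y) :=
      h _ (hN.mono hHN) hHc _ _ (subset_insert _ _) (erase_subset _ _) h1 hG1c
    rw [e1]
    apply ih _ _ _ ((erase_subset _ _).trans hHN) hG' hG1c h2
    have : ((insert x G).erase y) \ G' = (G \ G').erase y := by
      ext z
      simp only [mem_sdiff, mem_erase, mem_insert]
      constructor
      · rintro ⟨⟨a1, a2⟩, a3⟩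
        rcases a2 with rfl | a2
        · exact absurd hx.1 a3
        · exact ⟨a1, a2, a3⟩
      · rintro ⟨a1, a2, a3⟩
        exact ⟨⟨a1, Or.inr a2⟩, a3⟩
    rw [this, card_erase_of_mem (mem_sdiff.2 hy), hd]; rfl

/-- Moving the label of `y` to the unlabelled index `z`. -/
def mv {n : ℕ} (f : Fin n → Option Bool) (y z : Fin n) : Fin n → Option Bool :=
  fun i => if i = z then f y else if i = y then f z else f i

theorem mv_eq {n : ℕ} (f : Fin n → Option Bool) (y z : Fin n) :
    mv f y z = f ∘ Equiv.swap y z := by
  funext i
  simp only [mv, Function.comp, Equiv.swap_apply_def]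
  split_ifs <;> simp_all

theorem cnt_mv {n : ℕ} (f : Fin n → Option Bool) (y z : Fin n) (b : Bool) :
    cnt (mv f y z) b = cnt f b := by
  unfold cnt
  rw [mv_eq]
  apply card_bij (fun i _ => Equiv.swap y z i)
  · intro i hi
    simpa using hi
  · intro i _ j _ h
    exact (Equiv.swap y z).injective h
  · intro i hi
    refine ⟨Equiv.swap y z i, ?_, by simp⟩
    simpa using hi

theorem Good.mv {n k : ℕ} {f : Fin n → Option Bool} (h : Good k f) (y z : Fin n) :
    Good k (mv f y z) := by
  unfold Good
  rw [cnt_mv, cnt_mv]; exact h

section

variable {n k m : ℕ} (hmn : m + 3 ≤ n) (val : Finset (Fin n × Bool) → ℚ)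
    (h : ∀ H, Valid n k H → H.card = m + 1 → ∀ G G', G ⊆ H → G' ⊆ H → G.card = m → G'.card = m →
      val G = val G')

include hmn h

theorem move {f : Fin n → Option Bool} (hf : Good k f) (y z : Fin n) (hz : f z = none)
    (G G' : Finset (Fin n × Bool)) (hG : G ⊆ M f) (hG' : G' ⊆ M (mv f y z)) (h1 : G.card = m)
    (h2 : G'.card = m) : val G = val G' := by
  have hc := hf.card
  -- common part
  obtain ⟨K, hK, hKc⟩ : ∃ K ⊆ (M f).filter (fun ρ => ρ.1 ≠ y), K.card = m := by
    apply exists_subset_card_eq
    have e : ((M f).filter (fun ρ => ¬ ρ.1 ≠ y)).card ≤ 1 := by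
      rw [card_le_one]
      rintro ⟨a, b⟩ ha ⟨c, d⟩ hb
      simp only [mem_filter, mem_M, not_not] at ha hb
      obtain ⟨ha1, ha2⟩ := ha
      obtain ⟨hb1, hb2⟩ := hb
      subst ha2
      subst hb2
      rw [ha1] at hb1
      simp_all
    have := card_filter_add_card_filter_not (s := M f) (fun ρ => ρ.1 ≠ y)
    omega
  have hK1 : K ⊆ M f := hK.trans (filter_subset _ _)
  have hK2 : K ⊆ M (mv f y z) := by
    intro ρ hρ
    have := hK hρ
    simp only [mem_filter, mem_M] at this
    obtain ⟨e1, e2⟩ := this
    rw [mem_M]
    unfold mv
    have : ρ.1 ≠ z := by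
      intro hh
      rw [hh, hz] at e1
      exact absurd e1 (by simp)
    simp [this, e2, e1]
  rw [same_of_subset val h _ hf.valid _ G K rfl hG hK1 h1 hKc,
    same_of_subset val h _ (hf.mv y z).valid _ K G' rfl hK2 hG' hKc h2]

theorem exists_sub {f : Fin n → Option Bool} (hf : Good k f) : ∃ K ⊆ M f, K.card = m := by
  apply exists_subset_card_eq
  have := hf.card
  omega

theorem labels (d : ℕ) : ∀ (f f' : Fin n → Option Bool), Good k f → Good k f' →
    (univ.filter (fun i => f i ≠ f' i)).card = d → ∀ (G G' : Finset (Fin n × Bool)), G ⊆ M f →
    G' ⊆ M f' → G.card = m → G'.card = m → val G = val G' := by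
  induction d using Nat.strong_induction_on with
  | _ d ih =>
    intro f f' hf hf' hd G G' hG hG' h1 h2
    -- a label `b` at `z` in `f'` but not in `f` gives an index with label `b` in `f` but not in `f'`
    have key : ∀ (b : Bool) (z : Fin n), f' z = some b → f z ≠ some b →
        ∃ y, f y = some b ∧ f' y ≠ some b := by
      intro b z hz1 hz2
      by_contra hcon
      push Not at hcon
      have hsub : univ.filter (fun i => f i = some b) ⊂ univ.filter (fun i => f' i = some b) := by
        rw [ssubset_iff_of_subset]
        · exact ⟨z, by simp [hz1], by simp [hz2]⟩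
        · intro i hi
          simp only [mem_filter, mem_univ, true_and] at hi ⊢
          exact hcon i hi
      have := card_lt_card hsub
      change cnt f b < cnt f' b at this
      obtain ⟨a1, a2⟩ := hf
      obtain ⟨b1, b2⟩ := hf'
      cases b <;> omega
    by_cases hA : ∃ z, f z = none ∧ f' z ≠ none
    · obtain ⟨z, hz, hz'⟩ := hA
      obtain ⟨b, hb⟩ := Option.ne_none_iff_exists'.1 hz'
      obtain ⟨y, hy, hy'⟩ := key b z hb (by rw [hz]; simp)
      have hyz : y ≠ z := by rintro rfl; rw [hz] at hy; exact absurd hy (by simp)
      obtain ⟨K, hK, hKc⟩ := exists_sub hmn val h (hf.mv y z)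
      rw [move hmn val h hf y z hz G K hG hK h1 hKc]
      refine ih _ ?_ (mv f y z) f' (hf.mv y z) hf' rfl K G' hK hG' hKc h2
      rw [← hd]
      apply card_lt_card
      rw [ssubset_iff_of_subset]
      · refine ⟨z, ?_, ?_⟩
        · simp [hz, hb]
        · simp [mv, hy, hb]
      · intro i hi
        simp only [mem_filter, mem_univ, true_and] at hi ⊢
        unfold mv at hi
        by_cases h3 : i = z
        · subst h3; rw [hz, hb]; simp
        · by_cases h4 : i = y
          · subst h4; rw [hy]; exact fun hh => hy' hh.symm
          · simpa [h3, h4] using hi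
    · push Not at hA
      by_cases hff : f = f'
      · subst hff
        exact same_of_subset val h _ hf.valid _ G G' rfl hG hG' h1 h2
      · -- both have the same zero set
        obtain ⟨x, hx⟩ : ∃ x, f x ≠ f' x := by
          by_contra hcon
          push Not at hcon
          exact hff (funext hcon)
        obtain ⟨b, hb⟩ : ∃ b, f' x = some b := by
          by_contra hcon
          have hx0 : f' x = none := by
            by_contra h0
            exact hcon (Option.ne_none_iff_exists'.1 h0)
          -- `x` is unlabelled in `f'`, so `f x` is some `c`; count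
          have hfx : f x ≠ none := fun hh => hx (hh.trans hx0.symm)
          have c1 : (univ.filter (fun i => f i = none)).card = 2 ∧
              (univ.filter (fun i => f' i = none)).card = 2 := by
            have aux : ∀ g : Fin n → Option Bool, Good k g →
                (univ.filter (fun i => g i = none)).card = 2 := by
              intro g hg
              have e1 := card_filter_add_card_filter_not (s := (univ : Finset (Fin n)))
                (fun i => g i = none)
              have e2 := card_filter_add_card_filter_not
                (s := (univ : Finset (Fin n)).filter (fun i => ¬ g i = none))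
                (fun i => g i = some true)
              have e3 : ((univ : Finset (Fin n)).filter (fun i => ¬ g i = none)).filter
                  (fun i => g i = some true) = univ.filter (fun i => g i = some true) := by
                ext i
                simp only [mem_filter, mem_univ, true_and]
                constructor
                · exact fun hh => hh.2
                · intro hh; exact ⟨by rw [hh]; simp, hh⟩
              have e4 : ((univ : Finset (Fin n)).filter (fun i => ¬ g i = none)).filter
                  (fun i => ¬ g i = some true) = univ.filter (fun i => g i = some false) := by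
                ext i
                simp only [mem_filter, mem_univ, true_and]
                rcases g i with _ | (_ | _) <;> simp
              rw [e3, e4] at e2
              have e5 : (univ : Finset (Fin n)).card = n := by simp
              change cnt g true + cnt g false = _ at e2
              obtain ⟨g1, g2⟩ := hg
              omega
            exact ⟨aux f hf, aux f' hf'⟩
          have hsub : univ.filter (fun i => f i = none) ⊂ univ.filter (fun i => f' i = none) := by
            rw [ssubset_iff_of_subset]
            · exact ⟨x, by simp [hx0], by simp [hfx]⟩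
            · intro i hi
              simp only [mem_filter, mem_univ, true_and] at hi ⊢
              exact hA i hi
          have := card_lt_card hsub
          omega
        have hx2 : f x ≠ some b := fun hh => hx (hh.trans hb.symm)
        obtain ⟨y, hy, hy'⟩ := key b x hb hx2
        have hxy : x ≠ y := by rintro rfl; exact hx2 hy
        -- a zero index
        obtain ⟨z, hz⟩ : ∃ z, f z = none := by
          by_contra hcon
          push Not at hcon
          have e1 := card_M f
          have : (M f).card = n := by
            rw [card_M]
            have e2 := card_filter_add_card_filter_not (s := (univ : Finset (Fin n)))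
              (fun i => f i = some true)
            have e4 : ((univ : Finset (Fin n)).filter (fun i => ¬ f i = some true)) =
                univ.filter (fun i => f i = some false) := by
              ext i
              have := hcon i
              simp only [mem_filter, mem_univ, true_and]
              rcases hfi : f i with _ | (_ | _)
              · exact absurd hfi this
              · simp
              · simp
            rw [e4] at e2
            simpa [cnt] using e2
          have := hf.card
          omega
        have hzx : z ≠ x := by
          rintro rfl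
          have := hA z hz
          rw [this] at hb; exact absurd hb (by simp)
        have hzy : z ≠ y := by rintro rfl; rw [hz] at hy; exact absurd hy (by simp)
        -- three moves
        have e0 : f x ≠ none := by
          intro hh
          exact absurd (hA x hh) (by rw [hb]; simp)
        obtain ⟨K1, hK1, hK1c⟩ := exists_sub hmn val h (hf.mv x z)
        obtain ⟨K2, hK2, hK2c⟩ := exists_sub hmn val h ((hf.mv x z).mv y x)
        obtain ⟨K3, hK3, hK3c⟩ := exists_sub hmn val h (((hf.mv x z).mv y x).mv z y)
        rw [move hmn val h hf x z hz G K1 hG hK1 h1 hK1c,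
          move hmn val h (hf.mv x z) y x (by simp [mv, hz, hzx.symm]) K1 K2 hK1 hK2 hK1c hK2c,
          move hmn val h ((hf.mv x z).mv y x) z y
            (by simp [mv, hz, hzx.symm, hxy, hxy.symm, hzy, hzy.symm]) K2 K3 hK2 hK3 hK2c hK3c]
        refine ih _ ?_ _ f' (((hf.mv x z).mv y x).mv z y) hf' rfl K3 G' hK3 hG' hK3c h2
        have hval : ∀ i, mv (mv (mv f x z) y x) z y i =
            if i = x then f y else if i = y then f x else f i := by
          intro i
          unfold mv
          by_cases i1 : i = x
          · subst i1
            simp [hxy, hxy.symm, hzx, hzx.symm, hzy, hzy.symm]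
          · by_cases i2 : i = y
            · subst i2
              simp [hxy, hxy.symm, hzx, hzx.symm, hzy, hzy.symm]
            · by_cases i3 : i = z
              · subst i3
                simp [hxy, hxy.symm, hzx, hzx.symm, hzy, hzy.symm, hz]
              · simp [i1, i2, i3]
        rw [← hd]
        apply card_lt_card
        rw [ssubset_iff_of_subset]
        · refine ⟨x, by simpa using hx, ?_⟩
          simp only [mem_filter, mem_univ, true_and, not_not, hval]
          simp [hy, hb]
        · intro i hi
          simp only [mem_filter, mem_univ, true_and, hval] at hi ⊢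
          by_cases i1 : i = x
          · subst i1; exact hx
          · by_cases i2 : i = y
            · subst i2; rw [hy]; exact fun hh => hy' hh.symm
            · simpa [i1, i2] using hi

end

/-- Every valid set is contained in a maximal one. -/
theorem exists_label {n k : ℕ} (hk : 2 ≤ k) (hkn : k + 2 ≤ n) (G : Finset (Fin n × Bool))
    (hG : Valid n k G) : ∃ f : Fin n → Option Bool, Good k f ∧ G ⊆ M f := by
  classical
  obtain ⟨g1, g2, g3⟩ := hG
  set P := univ.filter (fun i : Fin n => (i, true) ∈ G) with hP
  set N := univ.filter (fun i : Fin n => (i, false) ∈ G) with hN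
  have hcard : ∀ b : Bool, (univ.filter (fun i : Fin n => (i, b) ∈ G)).card =
      (G.filter (fun ρ => ρ.2 = b)).card := by
    intro b
    apply card_bij (fun i _ => (i, b))
    · intro i hi
      simpa using hi
    · intro i _ j _ hh
      exact (Prod.mk.inj hh).1
    · rintro ⟨i, c⟩ hh
      simp only [mem_filter] at hh
      obtain ⟨h1, h2⟩ := hh
      subst h2
      exact ⟨i, by simp [h1], rfl⟩
  have hPc : P.card + 1 ≤ k := by rw [hP, hcard]; exact g2
  have hNc : N.card + k + 1 ≤ n := by rw [hN, hcard]; exact g3
  have hPN : P ⊆ univ \ N := by
    intro i hi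
    simp only [hP, hN, mem_sdiff, mem_filter, mem_univ, true_and] at hi ⊢
    exact fun hh => g1 i ⟨hi, hh⟩
  have c1 : (univ \ N).card + N.card = n := by
    have := card_sdiff_add_card_eq_card (subset_univ N)
    simpa using this
  obtain ⟨P', hP1, hP2, hP3⟩ := exists_subsuperset_card_eq hPN (n := k - 1) (by omega) (by omega)
  have hNP : N ⊆ univ \ P' := by
    intro i hi
    simp only [mem_sdiff, mem_univ, true_and]
    intro hh
    have := hP2 hh
    simp only [mem_sdiff] at this
    exact this.2 hi
  have c2 : (univ \ P').card + P'.card = n := by
    have := card_sdiff_add_card_eq_card (subset_univ P')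
    simpa using this
  obtain ⟨N', hN1, hN2, hN3⟩ := exists_subsuperset_card_eq hNP (n := n - k - 1) (by omega)
    (by omega)
  have hdis : ∀ i, i ∈ N' → i ∉ P' := by
    intro i hi
    have := hN2 hi
    simp only [mem_sdiff] at this
    exact this.2
  refine ⟨fun i => if i ∈ P' then some true else if i ∈ N' then some false else none, ⟨?_, ?_⟩,
    ?_⟩
  · have : univ.filter (fun i : Fin n => (if i ∈ P' then some true else
        if i ∈ N' then some false else none) = some true) = P' := by
      ext i
      simp only [mem_filter, mem_univ, true_and]
      split_ifs with a b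
      · simp [a]
      · simp [a]
      · simp [a]
    unfold cnt
    rw [this]; omega
  · have : univ.filter (fun i : Fin n => (if i ∈ P' then some true else
        if i ∈ N' then some false else none) = some false) = N' := by
      ext i
      simp only [mem_filter, mem_univ, true_and]
      split_ifs with a b
      · simp only [Option.some.injEq, reduceCtorEq, false_iff]
        exact fun hh => hdis i hh a
      · simp [b]
      · simp [b]
    unfold cnt
    rw [this]; omega
  · rintro ⟨i, b⟩ hi
    rw [mem_M]
    cases b
    · have h1 : i ∈ N' := hN1 (by simp [hN, hi])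
      simp [h1, hdis i h1]
    · have h1 : i ∈ P' := hP1 (by simp [hP, hi])
      simp [h1]

theorem conn {n k m : ℕ} (hk : 2 ≤ k) (hkn : k + 2 ≤ n) (_hm : 1 ≤ m) (hmn : m + 3 ≤ n)
    (val : Finset (Fin n × Bool) → ℚ)
    (h : ∀ H, Valid n k H → H.card = m + 1 → ∀ G G', G ⊆ H → G' ⊆ H → G.card = m →
      G'.card = m → val G = val G') :
    ∀ G G', Valid n k G → Valid n k G' → G.card = m → G'.card = m → val G = val G' := by
  intro G G' hG hG' h1 h2
  obtain ⟨f, hf, hGf⟩ := exists_label hk hkn G hG
  obtain ⟨f', hf', hGf'⟩ := exists_label hk hkn G' hG'
  exact labels hmn val h _ f f' hf hf' rfl G G' hGf hGf' h1 h2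

end Pool.Agent.Helper93.CB
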