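import Pool.Agent.Helper40.CB.Models

/-!
Low-dimensional Chow groups for polytopes of the dual type (Module D1 for `MP_745f23_co`).
-/

set_option autoImplicit false
set_option linter.unusedSectionVars false

namespace Pool.Agent.Helper40.CB

open Finset Matrix Module

variable {d : ℕ}

/-- `F` is a face whose vertices are the `q v`, `v ∈ G`. -/
def HasV {V : Type} (P : Set (Fin d → ℚ)) (q : V → (Fin d → ℚ)) (F : Set (Fin d → ℚ))
    (G : Finset V) : Prop := IsFace P F ∧ ∀ v, q v ∈ F ↔ v ∈ G

section

variable {P : Set (Fin d → ℚ)} {V : Type} [DecidableEq V] {q : V → (Fin d → ℚ)}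

theorem HasV.sub (hP : IsPolytope P) (allV : ∀ x, IsFace P {x} → ∃ v, x = q v)
    {F F' : Set (Fin d → ℚ)} {G G' : Finset V} (h : HasV P q F G) (h' : HasV P q F' G')
    (hs : G ⊆ G') : F ⊆ F' := by
  apply face_subset hP h.1 h'.1
  intro p hp hv
  obtain ⟨v, rfl⟩ := allV p hv
  exact (h'.2 v).2 (hs ((h.2 v).1 hp))

theorem HasV.eq (hP : IsPolytope P) (allV : ∀ x, IsFace P {x} → ∃ v, x = q v)
    {F F' : Set (Fin d → ℚ)} {G : Finset V} (h : HasV P q F G) (h' : HasV P q F' G) : F = F' :=
  Set.Subset.antisymm (h.sub hP allV h' subset_rfl) (h'.sub hP allV h subset_rfl)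

theorem HasV.nonempty {F : Set (Fin d → ℚ)} {G : Finset V} (h : HasV P q F G)
    (hne : G.Nonempty) : F.Nonempty := by
  obtain ⟨v, hv⟩ := hne
  exact ⟨q v, (h.2 v).2 hv⟩

theorem HasV.gne (hP : IsPolytope P) (allV : ∀ x, IsFace P {x} → ∃ v, x = q v)
    {F : Set (Fin d → ℚ)} {G : Finset V} (h : HasV P q F G) (hF : F.Nonempty) : G.Nonempty := by
  obtain ⟨p, hp, hv, -⟩ := exists_vertex hP h.1 hF 0
  obtain ⟨v, rfl⟩ := allV p hv
  exact ⟨v, (h.2 v).1 hp⟩

theorem HasV.lt (hP : IsPolytope P) (allV : ∀ x, IsFace P {x} → ∃ v, x = q v)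
    {F F' : Set (Fin d → ℚ)} {G G' : Finset V} (h : HasV P q F G) (h' : HasV P q F' G')
    (hne : G.Nonempty) (hs : G ⊂ G') : finrank ℚ (vs F) < finrank ℚ (vs F') := by
  apply fdim_lt h.1 h'.1 (h.nonempty hne) (h.sub hP allV h' hs.subset)
  rintro rfl
  obtain ⟨v, hv, hv'⟩ := Finset.exists_of_ssubset hs
  exact hv' ((h.2 v).1 ((h'.2 v).2 hv))

theorem hasV_chain (hP : IsPolytope P) (allV : ∀ x, IsFace P {x} → ∃ v, x = q v)
    {K : Finset V → Prop} (down : ∀ T T', T ⊆ T' → K T' → K T) {fc : Finset V → Set (Fin d → ℚ)}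
    (hfc : ∀ T, K T → HasV P q (fc T) T) :
    ∀ (e : ℕ) (T T' : Finset V), (T' \ T).card = e → K T' → T ⊆ T' → T.Nonempty →
      finrank ℚ (vs (fc T)) + T'.card ≤ finrank ℚ (vs (fc T')) + T.card := by
  intro e
  induction e with
  | zero =>
    intro T T' he _ hs _
    have : T = T' := subset_antisymm hs (sdiff_eq_empty_iff_subset.1 (card_eq_zero.1 he))
    rw [this]
  | succ e ih =>
    intro T T' he hK hs hne
    obtain ⟨v, hv⟩ : (T' \ T).Nonempty := card_pos.1 (by omega)
    rw [mem_sdiff] at hv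
    have hsub : T ⊆ T'.erase v := by
      intro x hx
      exact mem_erase.2 ⟨fun h => hv.2 (h ▸ hx), hs hx⟩
    have hK' : K (T'.erase v) := down _ _ (erase_subset _ _) hK
    have h1 := ih T (T'.erase v) (by
      rw [erase_sdiff_comm, card_erase_of_mem (mem_sdiff.2 hv), he]; rfl) hK' hsub hne
    have h2 := (hfc _ hK').lt hP allV (hfc _ hK) (hne.mono hsub) (erase_ssubset hv.1)
    have h3 : (T'.erase v).card + 1 = T'.card := card_erase_add_one hv.1
    omega

theorem hasV_ge (hP : IsPolytope P) (allV : ∀ x, IsFace P {x} → ∃ v, x = q v)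
    {K : Finset V → Prop} (down : ∀ T T', T ⊆ T' → K T' → K T) {fc : Finset V → Set (Fin d → ℚ)}
    (hfc : ∀ T, K T → HasV P q (fc T) T) {T : Finset V} (hK : K T) (hne : T.Nonempty) :
    T.card ≤ finrank ℚ (vs (fc T)) + 1 := by
  obtain ⟨v, hv⟩ := hne
  have := hasV_chain hP allV down hfc _ {v} T rfl hK (by simpa using hv) (singleton_nonempty v)
  rw [card_singleton] at this
  omega

end

theorem finrank_vs_top {P : Set (Fin d → ℚ)} (hdim : affineSpan ℚ P = ⊤) :
    finrank ℚ (vs P) = d := by
  have h : vs P = ⊤ := AffineSubspace.vectorSpan_eq_top_of_affineSpan_eq_top ℚ _ _ hdim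
  rw [h, finrank_top, Module.finrank_fin_fun]

/-- all `m`-subsets are connected -/
theorem johnson {α : Type} [DecidableEq α] {m : ℕ} (val : Finset α → ℚ)
    (h : ∀ H : Finset α, H.card = m + 1 → ∀ G G', G ⊆ H → G' ⊆ H → G.card = m → G'.card = m →
      val G = val G') :
    ∀ (e : ℕ) (G G' : Finset α), (G \ G').card = e → G.card = m → G'.card = m →
      val G = val G' := by
  intro e
  induction e with
  | zero =>
    intro G G' he hG hG'
    have hs : G ⊆ G' := sdiff_eq_empty_iff_subset.1 (card_eq_zero.1 he)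
    rw [eq_of_subset_of_card_le hs (by omega)]
  | succ e ih =>
    intro G G' he hG hG'
    obtain ⟨x, hx⟩ : (G \ G').Nonempty := card_pos.1 (by omega)
    have hc : (G' \ G).card = (G \ G').card := by
      have h1 := card_sdiff_add_card_inter G G'
      have h2 := card_sdiff_add_card_inter G' G
      rw [inter_comm] at h2
      omega
    obtain ⟨y, hy⟩ : (G' \ G).Nonempty := card_pos.1 (by omega)
    rw [mem_sdiff] at hx hy
    have h1 : val G = val (insert y (G.erase x)) := by
      apply h (insert y G) (by rw [card_insert_of_notMem hy.2, hG]) _ _ (subset_insert _ _)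
        (insert_subset_insert _ (erase_subset _ _)) hG
      rw [card_insert_of_notMem (fun h => hy.2 (mem_of_mem_erase h)), card_erase_of_mem hx.1, hG]
      have : 0 < G.card := card_pos.2 ⟨x, hx.1⟩
      omega
    rw [h1]
    apply ih
    · have : insert y (G.erase x) \ G' = (G \ G').erase x := by
        ext z
        simp only [mem_sdiff, mem_insert, mem_erase]
        constructor
        · rintro ⟨rfl | h, h'⟩
          · exact absurd hy.1 h'
          · exact ⟨h.1, h.2, h'⟩
        · rintro ⟨h1, h2, h3⟩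
          exact ⟨Or.inr ⟨h1, h2⟩, h3⟩
      rw [this, card_erase_of_mem (mem_sdiff.2 hx), he]; rfl
    · rw [card_insert_of_notMem (fun h => hy.2 (mem_of_mem_erase h)), card_erase_of_mem hx.1, hG]
      have : 0 < G.card := card_pos.2 ⟨x, hx.1⟩
      omega
    · exact hG'

theorem bool_all {n d j : ℕ} {P : Set (Fin d → ℚ)} (M : BoolModel n P) (hn : n = d + 1)
    (hdim : affineSpan ℚ P = ⊤) (hj : j + 1 ≤ d) : chowBetti P j = 1 := by
  classical
  let fc : Finset (Fin n) → Set (Fin d → ℚ) := fun G => (M.of_face G).choose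
  have hfc : ∀ T, (fun _ => True) T → HasV P M.q (fc T) T := fun T _ => (M.of_face T).choose_spec
  have hge : ∀ T : Finset (Fin n), T.Nonempty → T.card ≤ finrank ℚ (vs (fc T)) + 1 := fun T hT =>
    hasV_ge (K := fun _ => True) M.hP M.allV (fun _ _ _ _ => trivial) hfc trivial hT
  have hPd := finrank_vs_top hdim
  have hle : ∀ T : Finset (Fin n), T.Nonempty → finrank ℚ (vs (fc T)) + 1 ≤ T.card := by
    intro T hT
    have h1 := hasV_chain (K := fun _ => True) M.hP M.allV (fun _ _ _ _ => trivial) hfc _ T univ rfl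
      trivial (subset_univ _) hT
    have h2 : finrank ℚ (vs (fc univ)) ≤ finrank ℚ (vs P) :=
      Submodule.finrank_mono (vs_mono (hfc univ trivial).1.subset)
    rw [card_univ, Fintype.card_fin] at h1
    omega
  have hall : ∀ (i : ℕ) (F : FaceOfDim P i), ∃ T : Finset (Fin n), True ∧ T.card = i + 1 ∧
      F.1 = fc T := by
    intro i F
    let T : Finset (Fin n) := univ.filter (fun v => M.q v ∈ F.1)
    have hF : HasV P M.q F.1 T := ⟨F.2.1, fun v => by simp [T]⟩
    have hT := hF.gne M.hP M.allV F.2.2.1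
    have heq : F.1 = fc T := hF.eq M.hP M.allV (hfc T trivial)
    refine ⟨T, trivial, ?_, heq⟩
    have h1 := hge T hT
    have h2 := hle T hT
    rw [← heq] at h1 h2
    have h3 : finrank ℚ (vs F.1) = i := F.2.2.2
    omega
  let S : SimpModel P (Fin n) j :=
    { hP := M.hP
      q := M.q
      K := fun _ => True
      down := fun _ _ _ _ => trivial
      face := fc
      isFace := fun T _ _ => (hfc T trivial).1
      mem := by
        intro T _ _ x
        constructor
        · rintro ⟨hx, hv⟩
          obtain ⟨v, rfl⟩ := M.allV x hv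
          exact ⟨v, ((hfc T trivial).2 v).1 hx, rfl⟩
        · rintro ⟨v, hv, rfl⟩
          exact ⟨((hfc T trivial).2 v).2 hv, M.isV v⟩
      inj := M.inj
      dim := fun T _ hT => le_antisymm (hle T hT) (hge T hT)
      all_j := hall j
      all_j1 := hall (j + 1)
      conn := by
        intro val h G G' _ _ hG hG'
        exact johnson val (fun H hH => h H trivial hH) _ G G' rfl hG hG'
      ex := by
        obtain ⟨T, -, hT⟩ := exists_subset_card_eq (s := (univ : Finset (Fin n))) (n := j + 1)
          (by rw [card_univ, Fintype.card_fin]; omega)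
        exact ⟨T, trivial, hT⟩ }
  exact S.chow_eq_one

open Pool.Agent.Helper93.CB in
theorem valid_sub_sgn {n k : ℕ} {G : Finset (Fin n × Bool)} (h : Valid n k G) :
    ∃ A : Finset (Fin n), A.card = k ∧ G ⊂ sgn A := by
  classical
  obtain ⟨h1, h2, h3⟩ := h
  have hcard : ∀ b : Bool, (univ.filter (fun i : Fin n => (i, b) ∈ G)).card =
      (G.filter (fun ρ => ρ.2 = b)).card := by
    intro b
    apply card_bij (fun i _ => (i, b))
    · intro i hi
      simp only [mem_filter, mem_univ, true_and] at hi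
      simp [hi]
    · intro i _ j _ h
      exact (Prod.mk.inj h).1
    · rintro ⟨i, c⟩ h
      simp only [mem_filter] at h
      obtain ⟨h1, h2⟩ := h
      subst h2
      exact ⟨i, by simp [h1], rfl⟩
  set T := univ.filter (fun i : Fin n => (i, true) ∈ G) with hT
  set N := univ.filter (fun i : Fin n => (i, false) ∈ G) with hN
  have hTc : T.card + 1 ≤ k := by rw [hcard]; exact h2
  have hNc : N.card + k + 1 ≤ n := by rw [hcard]; exact h3
  have hTN : T ⊆ Nᶜ := by
    intro i hi
    rw [mem_compl]
    intro hi'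
    exact h1 i ⟨(mem_filter.1 hi).2, (mem_filter.1 hi').2⟩
  obtain ⟨A, hA1, hA2, hA3⟩ := exists_subsuperset_card_eq (n := k) hTN (by omega)
    (by rw [card_compl, Fintype.card_fin]; omega)
  refine ⟨A, hA3, ?_⟩
  have hsub : G ⊆ sgn A := by
    rintro ⟨i, b⟩ hi
    cases b
    · rw [mem_sgn_false]
      intro hiA
      exact (mem_compl.1 (hA2 hiA)) (mem_filter.2 ⟨mem_univ _, hi⟩)
    · rw [mem_sgn_true]
      exact hA1 (mem_filter.2 ⟨mem_univ _, hi⟩)
  refine hsub.ssubset_of_ne ?_
  intro heq
  have h4 : (sgn A).card = n := card_sgn A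
  rw [← heq] at h4
  have h5 := card_filter_add_card_filter_not (s := G) (fun ρ : Fin n × Bool => ρ.2 = true)
  have h6 : (G.filter (fun ρ : Fin n × Bool => ¬ ρ.2 = true)) = G.filter (fun ρ => ρ.2 = false) := by
    ext ρ; simp
  rw [h6] at h5
  omega

open Pool.Agent.Helper93.CB in
theorem dual_low {n k d j : ℕ} {P : Set (Fin d → ℚ)} (M : DualModel n k P) (hn : n = d + 1)
    (hk : 2 ≤ k) (hkn : k + 2 ≤ n) (hdim : affineSpan ℚ P = ⊤) (hj : j + 4 ≤ n) :
    chowBetti P j = 1 := by
  classical
  let ok : Finset (Fin n × Bool) → Prop := fun G => Valid n k G ∨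
    ∃ A : Finset (Fin n), A.card = k ∧ G = sgn A
  let fc : Finset (Fin n × Bool) → Set (Fin d → ℚ) := fun G =>
    if h : ok G then (M.of_face G h).choose else ∅
  have hok : ∀ T, ok T → HasV P M.q (fc T) T := by
    intro T h
    have : fc T = (M.of_face T h).choose := dif_pos h
    rw [this]
    exact (M.of_face T h).choose_spec
  have hfc : ∀ T, Valid n k T → HasV P M.q (fc T) T := fun T h => hok T (Or.inl h)
  have down : ∀ T T' : Finset (Fin n × Bool), T ⊆ T' → Valid n k T' → Valid n k T :=
    fun T T' h h' => h'.mono h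
  have hge : ∀ T : Finset (Fin n × Bool), Valid n k T → T.Nonempty →
      T.card ≤ finrank ℚ (vs (fc T)) + 1 := fun T hT hne =>
    hasV_ge M.hP M.allV down hfc hT hne
  have hPd := finrank_vs_top hdim
  -- facets have dimension at most `d - 1`
  have hsg : ∀ A : Finset (Fin n), A.card = k → finrank ℚ (vs (fc (sgn A))) < d := by
    intro A hA
    have h1 := hok (sgn A) (Or.inr ⟨A, hA, rfl⟩)
    have hne : (sgn A).Nonempty := by
      rw [← card_pos, card_sgn]; omega
    refine lt_of_lt_of_eq ?_ hPd
    apply fdim_lt h1.1 (isFace_self P) (h1.nonempty hne) h1.1.subset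
    intro heq
    obtain ⟨i, hi⟩ : ∃ i : Fin n, i ∈ A := by
      obtain ⟨i, hi⟩ := card_pos.1 (by omega : 0 < A.card)
      exact ⟨i, hi⟩
    have h2 : M.q (i, false) ∈ P := (M.isV (i, false)).subset rfl
    have h3 := (h1.2 _).1 (heq.symm ▸ h2 : M.q (i, false) ∈ fc (sgn A))
    rw [mem_sgn_false] at h3
    exact h3 hi
  have hle : ∀ T : Finset (Fin n × Bool), Valid n k T → T.Nonempty →
      finrank ℚ (vs (fc T)) + 1 ≤ T.card := by
    intro T hT hne
    obtain ⟨f, hf, hTf⟩ := exists_label hk hkn T hT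
    have h1 := hasV_chain M.hP M.allV down hfc _ T _ rfl hf.valid hTf hne
    obtain ⟨A, hA, hss⟩ := valid_sub_sgn hf.valid
    have h2 := (hfc _ hf.valid).lt M.hP M.allV (hok (sgn A) (Or.inr ⟨A, hA, rfl⟩))
      (hne.mono hTf) hss
    have h3 := hsg A hA
    have h4 := hf.card
    omega
  -- facets have dimension exactly `d - 1`
  have hsg2 : ∀ A : Finset (Fin n), A.card = k → d ≤ finrank ℚ (vs (fc (sgn A))) + 1 := by
    intro A hA
    obtain ⟨a, ha⟩ : A.Nonempty := card_pos.1 (by omega)
    obtain ⟨b, hb⟩ : (Aᶜ).Nonempty := card_pos.1 (by rw [card_compl, Fintype.card_fin]; omega)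
    rw [mem_compl] at hb
    set G := ((sgn A).erase (a, true)).erase (b, false) with hG
    have hmem1 : (a, true) ∈ sgn A := mem_sgn_true.2 ha
    have hmem2 : (b, false) ∈ (sgn A).erase (a, true) :=
      mem_erase.2 ⟨by simp, mem_sgn_false.2 hb⟩
    have hGc : G.card + 2 = n := by
      rw [hG, card_erase_of_mem hmem2, card_erase_of_mem hmem1, card_sgn]; omega
    have hGs : G ⊂ sgn A :=
      (erase_ssubset hmem2).trans_subset (erase_subset _ _)
    have hGv : Valid n k G := by
      refine ⟨?_, ?_, ?_⟩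
      · rintro i ⟨h1, h2⟩
        have h1' := mem_sgn_true.1 (hGs.subset h1)
        have h2' := mem_sgn_false.1 (hGs.subset h2)
        exact h2' h1'
      · have : (G.filter (fun ρ => ρ.2 = true)) ⊆ (A.erase a).image (fun i => (i, true)) := by
          rintro ⟨i, t⟩ hi
          simp only [mem_filter, hG, mem_erase, ne_eq, Prod.mk.injEq] at hi
          obtain ⟨⟨-, h2, h3⟩, rfl⟩ := hi
          simp only [mem_image, mem_erase, Prod.mk.injEq, and_true, exists_eq_right]
          exact ⟨fun h => h2 ⟨h, rfl⟩, mem_sgn_true.1 h3⟩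
        have h1 := (card_le_card this).trans card_image_le
        rw [card_erase_of_mem ha, hA] at h1
        omega
      · have : (G.filter (fun ρ => ρ.2 = false)) ⊆ (Aᶜ.erase b).image (fun i => (i, false)) := by
          rintro ⟨i, t⟩ hi
          simp only [mem_filter, hG, mem_erase, ne_eq, Prod.mk.injEq] at hi
          obtain ⟨⟨h1, -, h3⟩, rfl⟩ := hi
          simp only [mem_image, mem_erase, mem_compl, Prod.mk.injEq, and_true, exists_eq_right]
          exact ⟨fun h => h1 ⟨h, rfl⟩, mem_sgn_false.1 h3⟩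
        have h1 := (card_le_card this).trans card_image_le
        rw [card_erase_of_mem (mem_compl.2 hb), card_compl, Fintype.card_fin, hA] at h1
        omega
    have hGne : G.Nonempty := card_pos.1 (by omega)
    have h1 := (hfc _ hGv).lt M.hP M.allV (hok (sgn A) (Or.inr ⟨A, hA, rfl⟩)) hGne hGs
    have h2 := hge G hGv hGne
    omega
  have hall : ∀ (i : ℕ), i + 3 ≤ n → ∀ (F : FaceOfDim P i), ∃ T : Finset (Fin n × Bool),
      Valid n k T ∧ T.card = i + 1 ∧ F.1 = fc T := by
    intro i hi F
    have hFd : finrank ℚ (vs F.1) = i := F.2.2.2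
    have hFP : F.1 ≠ P := by
      intro h
      rw [h, hPd] at hFd
      omega
    obtain ⟨T, hT, hTF⟩ := M.face_of F.1 F.2.1 F.2.2.1 hFP
    have hF : HasV P M.q F.1 T := ⟨F.2.1, hTF⟩
    have hTne := hF.gne M.hP M.allV F.2.2.1
    have heq : F.1 = fc T := hF.eq M.hP M.allV (hok T hT)
    rcases hT with hT | ⟨A, hA, rfl⟩
    · refine ⟨T, hT, ?_, heq⟩
      have h1 := hge T hT hTne
      have h2 := hle T hT hTne
      rw [← heq] at h1 h2
      omega
    · exfalso
      have := hsg2 A hA
      rw [← heq] at this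
      omega
  let S : SimpModel P (Fin n × Bool) j :=
    { hP := M.hP
      q := M.q
      K := Valid n k
      down := down
      face := fc
      isFace := fun T hT _ => (hfc T hT).1
      mem := by
        intro T hT _ x
        constructor
        · rintro ⟨hx, hv⟩
          obtain ⟨v, rfl⟩ := M.allV x hv
          exact ⟨v, ((hfc T hT).2 v).1 hx, rfl⟩
        · rintro ⟨v, hv, rfl⟩
          exact ⟨((hfc T hT).2 v).2 hv, M.isV v⟩
      inj := M.inj
      dim := fun T hT hne => le_antisymm (hle T hT hne) (hge T hT hne)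
      all_j := hall j (by omega)
      all_j1 := hall (j + 1) (by omega)
      conn := by
        intro val h
        exact conn hk hkn (m := j + 1) (by omega) (by omega) val h
      ex := by
        obtain ⟨f, hf, -⟩ := exists_label hk hkn ∅ ⟨by simp, by simp; omega, by simp; omega⟩
        have hc := hf.card
        obtain ⟨T, hT1, hT2⟩ := exists_subset_card_eq (s := Pool.Agent.Helper93.CB.M f)
          (n := j + 1) (by omega)
        exact ⟨T, hf.valid.mono hT1, hT2⟩ }
  exact S.chow_eq_one

end Pool.Agent.Helper40.CB
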